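import Mathlib

namespace Pool.Agent.Results.MP_51e3e3_an.Plane

open Set Filter Topology Finset

set_option maxHeartbeats 400000

noncomputable def v (n : ℕ) : ℝ × ℝ := ((-1) ^ n / n, (-1) ^ n / √n)

def idx (N : ℕ) (i : ℤ) (r : ℕ) : ℕ := N + 2 * r + if 0 ≤ i then 0 else 1

noncomputable def blk (N : ℕ) (i : ℤ) : ℝ × ℝ := ∑ r ∈ range i.natAbs, v (idx N i r)

theorem term {N n L : ℕ} (hN : 0 < N) (h1 : N ≤ n) (h2 : n ≤ N + L) :
    |(N:ℝ) * (1 / n) - 1| ≤ L / N ∧ |√N * (1 / √n) - 1| ≤ L / N := by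
  have a0 : (0:ℝ) < N := by exact_mod_cast hN
  have a1 : (N:ℝ) ≤ n := by exact_mod_cast h1
  have a2 : (n:ℝ) ≤ N + L := by exact_mod_cast h2
  have a3 : (0:ℝ) < n := by linarith
  have b1 : (N:ℝ) * (1 / n) ≤ 1 := by rw [mul_one_div, div_le_one a3]; exact a1
  have b2 : 1 - (L:ℝ) / N ≤ N * (1 / n) := by
    rw [mul_one_div, le_div_iff₀ a3, sub_mul, div_mul_eq_mul_div]
    have : (L:ℝ) ≤ L * n / N := by rw [le_div_iff₀ a0]; gcongr
    linarith
  have b3 : √N * (1 / √n) = √((N:ℝ) * (1 / n)) := by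
    rw [Real.sqrt_mul a0.le, one_div, one_div, Real.sqrt_inv]
  have b4 : √((N:ℝ) * (1 / n)) ≤ 1 := Real.sqrt_le_one.2 b1
  have b5 : (N:ℝ) * (1 / n) ≤ √((N:ℝ) * (1 / n)) :=
    Real.le_sqrt_of_sq_le (by nlinarith [(by positivity : (0:ℝ) ≤ N * (1 / n))])
  have b6 : (0:ℝ) ≤ L / N := by positivity
  rw [b3, abs_le, abs_le]
  exact ⟨⟨by linarith, by linarith⟩, by linarith, by linarith⟩

theorem sgn {N : ℕ} (hN : Even N) (i : ℤ) (r : ℕ) :
    (-1:ℝ) ^ idx N i r = if 0 ≤ i then 1 else -1 := by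
  unfold idx
  split_ifs <;> simp [pow_add, hN.neg_one_pow]

theorem blk_est {N : ℕ} (hN : 0 < N) (he : Even N) (i : ℤ) :
    |(N:ℝ) * (blk N i).1 - i| ≤ 2 * i ^ 2 / N ∧ |√N * (blk N i).2 - i| ≤ 2 * i ^ 2 / N := by
  have h : ∀ r ∈ range i.natAbs, _ := fun r hr => term (n := idx N i r) (L := 2 * i.natAbs) hN
    (by unfold idx; omega) (by have := mem_range.1 hr; unfold idx; split_ifs <;> omega)
  have e : (i:ℝ) = ∑ r ∈ range i.natAbs, (if 0 ≤ i then 1 else -1 : ℝ) := by
    rw [sum_const, card_range, nsmul_eq_mul, Nat.cast_natAbs, Int.cast_abs]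
    split_ifs with h
    · rw [abs_of_nonneg (by exact_mod_cast h), mul_one]
    · rw [abs_of_neg (by exact_mod_cast not_le.1 h)]; ring
  have e2 : (2 * i ^ 2 / N : ℝ) = ∑ r ∈ range i.natAbs, (((2 * i.natAbs : ℕ) : ℝ) / N) := by
    rw [sum_const, card_range, nsmul_eq_mul]
    push_cast
    rw [Nat.cast_natAbs, Int.cast_abs, ← sq_abs]; ring
  rw [e2, e]
  simp only [blk, Prod.fst_sum, Prod.snd_sum, mul_sum, ← sum_sub_distrib]
  constructor <;> refine (abs_sum_le_sum_abs _ _).trans (sum_le_sum fun r hr => ?_)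
  · refine le_trans (le_of_eq ?_) (h r hr).1
    simp only [v, sgn he]
    split_ifs
    · rfl
    · rw [← abs_neg]; congr 1; ring
  · refine le_trans (le_of_eq ?_) (h r hr).2
    simp only [v, sgn he]
    split_ifs
    · rfl
    · rw [← abs_neg]; congr 1; ring

def Inv (c : ℝ) (N : ℕ) (e : ℝ × ℝ) : Prop := |N * e.1| ≤ 5 * c ∧ |√N * e.2 - N * e.1| ≤ c

noncomputable def ctl (N : ℕ) (e : ℝ × ℝ) : ℤ := round (2 * (N * e.1) - √N * e.2)

theorem step {c : ℝ} {N : ℕ} {e : ℝ × ℝ} (hc : 5 ≤ c) (hN : 1000 * c ≤ N) (he : Even N)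
    (h : Inv c N e) : |(ctl N e : ℝ)| ≤ 7 * c ∧ Inv c (4 * N) (e - blk N (ctl N e)) := by
  have a0 : (0:ℝ) < N := by linarith
  obtain ⟨b1, b2⟩ := blk_est (by exact_mod_cast a0) he (ctl N e)
  have b3 := abs_sub_round (2 * (N * e.1) - √N * e.2)
  obtain ⟨h1, h2⟩ := h
  rw [← ctl] at b3
  set i : ℝ := ((ctl N e : ℤ) : ℝ)
  rw [abs_le] at h1 h2 b3
  have b4 : |i| ≤ 7 * c := abs_le.2 ⟨by linarith [h1.1, h2.2, b3.2], by linarith [h1.2, h2.1, b3.1]⟩
  have b5 : 2 * i ^ 2 / N ≤ c / 10 := by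
    rw [div_le_iff₀ a0, ← sq_abs]
    nlinarith [abs_nonneg i]
  rw [abs_le] at b1 b2
  have e1 : √((4 * N : ℕ) : ℝ) = 2 * √N := by
    push_cast; rw [Real.sqrt_mul (by norm_num), show (4:ℝ) = 2 ^ 2 by norm_num,
      Real.sqrt_sq (by norm_num)]
  refine ⟨b4, ?_, ?_⟩ <;> simp only [e1, Prod.fst_sub, Prod.snd_sub] <;> push_cast <;>
    rw [abs_le] <;> constructor <;>
    linarith [h1.1, h1.2, h2.1, h2.2, b1.1, b1.2, b2.1, b2.2, b3.1, b3.2]

theorem init (a : ℝ) : ∃ S : Finset ℕ, (∀ n ∈ S, 1 ≤ n) ∧ |a - ∑ n ∈ S, (v n).1| ≤ 1 / 2000 := by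
  have key : ∀ (p : ℕ) (a : ℝ), 0 ≤ a → ∃ m : ℕ,
      |a - ∑ r ∈ range m, (1 / (2000 + 2 * r + p : ℕ) : ℝ)| ≤ 1 / 2000 := by
    intro p a ha
    have h1 : Tendsto (fun m => ∑ r ∈ range m, (1 / (2000 + 2 * r + p : ℕ) : ℝ)) atTop atTop := by
      rw [← not_summable_iff_tendsto_nat_atTop_of_nonneg (fun _ => by positivity)]
      intro h
      refine Real.not_summable_one_div_natCast ((summable_nat_add_iff (1000 + p)).1 ?_)
      refine Summable.of_nonneg_of_le (fun _ => by positivity) (fun r => ?_) (h.mul_left 2)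
      rw [mul_one_div, div_le_div_iff₀ (by positivity) (by positivity)]
      push_cast; linarith [(by positivity : (0:ℝ) ≤ p)]
    have hex := (h1.eventually_gt_atTop a).exists
    classical
    have h2 := Nat.find_spec hex
    rcases hm : Nat.find hex with _ | m
    · rw [hm] at h2; simp at h2; linarith
    · have h3 := not_lt.1 (Nat.find_min hex (m := m) (by omega))
      rw [hm, sum_range_succ] at h2
      have : (1 / (2000 + 2 * m + p : ℕ) : ℝ) ≤ 1 / 2000 :=
        one_div_le_one_div_of_le (by norm_num) (by exact_mod_cast (by omega))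
      exact ⟨m, abs_le.2 ⟨by linarith, by linarith⟩⟩
  rcases le_total 0 a with h | h
  · obtain ⟨m, hm⟩ := key 0 a h
    refine ⟨(range m).image fun r => 2000 + 2 * r + 0, fun n hn => by obtain ⟨r, -, rfl⟩ := mem_image.1 hn; omega, ?_⟩
    rw [sum_image fun _ _ _ _ h => by simpa using h]
    refine le_trans (le_of_eq ?_) hm
    simp only [v, pow_add, pow_mul]
    norm_num
  · obtain ⟨m, hm⟩ := key 1 (-a) (by linarith)
    refine ⟨(range m).image fun r => 2000 + 2 * r + 1, fun n hn => by obtain ⟨r, -, rfl⟩ := mem_image.1 hn; omega, ?_⟩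
    rw [sum_image fun _ _ _ _ h => by simpa using h, ← abs_neg]
    refine le_trans (le_of_eq ?_) hm
    congr 1
    simp only [v, pow_add, pow_mul, neg_div, sum_neg_distrib]
    norm_num [neg_div]; ring

theorem result (a b : ℝ) : ∃ A : Set ℕ, (∀ n ∈ A, 1 ≤ n) ∧
    HasSum (A.indicator fun n : ℕ => (((-1) ^ n / n, (-1) ^ n / √n) : ℝ × ℝ)) (a, b) := by
  classical
  obtain ⟨S, S1, S2⟩ := init a
  obtain ⟨M, hM⟩ := exists_nat_ge (max (max (5000:ℝ) ((S.sup id + 1 : ℕ) : ℝ))
    ((2000 * (b - ∑ n ∈ S, (v n).2)) ^ 2))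
  simp only [max_le_iff] at hM
  obtain ⟨⟨M1, M2⟩, M3⟩ := hM
  set c : ℝ := 2 * M / 1000 with hc
  let N : ℕ → ℕ := fun k => 4 ^ k * (2 * M)
  have hN : ∀ k, N (k + 1) = 4 * N k := fun k => by simp only [N]; ring
  have hN1 : ∀ k, 1000 * c ≤ N k := fun k => by
    have : (1:ℝ) ≤ 4 ^ k := one_le_pow₀ (by norm_num)
    simp only [N, hc]; push_cast; nlinarith
  have hN2 : ∀ k, Even (N k) := fun k => ⟨4 ^ k * M, by simp only [N]; ring⟩
  have hc5 : 5 ≤ c := by rw [hc]; linarith
  have hmono : StrictMono N := strictMono_nat_of_lt_succ fun k => by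
    have : (0:ℝ) < N k := by linarith [hN1 k]
    have : 0 < N k := by exact_mod_cast this
    rw [hN]; omega
  let e : ℕ → ℝ × ℝ := fun k => Nat.rec ((a, b) - ∑ n ∈ S, v n)
    (fun k x => x - blk (N k) (ctl (N k) x)) k
  have hI : ∀ k, Inv c (N k) (e k) := by
    intro k
    induction k with
    | zero =>
      have e1 : (e 0).1 = a - ∑ n ∈ S, (v n).1 := by simp [e, Prod.fst_sum]
      have e2 : (e 0).2 = b - ∑ n ∈ S, (v n).2 := by simp [e, Prod.snd_sum]
      have e3 : (N 0 : ℝ) = 2 * M := by simp [N]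
      have a1 : |N 0 * (e 0).1| ≤ c / 2 := by
        rw [abs_mul, e1, e3, abs_of_nonneg (by positivity), hc]; nlinarith
      have a2 : |√(N 0) * (e 0).2| ≤ c / 2 := by
        have h1 : |2000 * (b - ∑ n ∈ S, (v n).2)| ≤ √(2 * M) :=
          Real.abs_le_sqrt (by linarith)
        rw [abs_mul, abs_of_nonneg (by norm_num : (0:ℝ) ≤ 2000)] at h1
        have h2 := Real.mul_self_sqrt (show (0:ℝ) ≤ 2 * M by positivity)
        rw [abs_mul, e2, e3, abs_of_nonneg (by positivity), hc]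
        nlinarith [Real.sqrt_nonneg (2 * M : ℝ)]
      rw [abs_le] at a1 a2
      exact ⟨abs_le.2 ⟨by linarith [a1.1], by linarith [a1.2]⟩,
        abs_le.2 ⟨by linarith [a1.2, a2.1], by linarith [a1.1, a2.2]⟩⟩
    | succ k ih => rw [hN]; exact (step hc5 (hN1 k) (hN2 k) ih).2
  set i : ℕ → ℤ := fun k => ctl (N k) (e k) with hi
  have hi1 : ∀ k, ((i k).natAbs : ℝ) ≤ 7 * c := fun k => by
    rw [Nat.cast_natAbs, Int.cast_abs]; exact (step hc5 (hN1 k) (hN2 k) (hI k)).1
  have hi2 : ∀ k, (i k).natAbs ≤ N k := fun k => by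
    have : ((i k).natAbs : ℝ) ≤ N k := by linarith [hi1 k, hN1 k]
    exact_mod_cast this
  let T : ℕ → Finset ℕ := fun k => (range (i k).natAbs).image (idx (N k) (i k))
  have hT : ∀ k, ∀ n ∈ T k, N k ≤ n ∧ n < N (k + 1) := fun k n hn => by
    obtain ⟨r, hr, rfl⟩ := mem_image.1 hn
    have := mem_range.1 hr
    have := hi2 k
    rw [hN]; unfold idx; split_ifs <;> omega
  have hS : ∀ n ∈ S, n < N 0 := fun n hn => by
    have h1 : n ≤ S.sup id := le_sup (f := id) hn
    have h2 : S.sup id + 1 ≤ M := by exact_mod_cast M2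
    simp only [N]; omega
  let A : Set ℕ := {n | n ∈ S ∨ ∃ k, n ∈ T k}
  have hsum : ∀ {X : Type} [AddCommMonoid X] (f : ℕ → X) (k : ℕ),
      ∑ n ∈ range (N k), A.indicator f n =
        ∑ n ∈ S, f n + ∑ j ∈ range k, ∑ r ∈ range (i j).natAbs, f (idx (N j) (i j) r) := by
    intro X _ f k
    induction k with
    | zero =>
      rw [sum_range_zero, add_zero, ← sum_subset (s₁ := S) (fun n hn => mem_range.2 (hS n hn))]
      · exact sum_congr rfl fun n hn => indicator_of_mem (show n ∈ A from Or.inl hn) _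
      · intro n hn hn'
        refine indicator_of_notMem ?_ _
        rintro (h | ⟨k, h⟩)
        · exact hn' h
        · have := hmono.monotone (Nat.zero_le k)
          have := (hT k n h).1
          have := mem_range.1 hn
          omega
    | succ k ih =>
      rw [sum_range_succ, ← add_assoc, ← ih, ← sum_range_add_sum_Ico _ (hmono.monotone k.le_succ),
        ← sum_subset (s₁ := T k) (s₂ := Ico _ _) (fun n hn => mem_Ico.2 (hT k n hn))]
      · congr 1
        rw [← sum_image (s := range (i k).natAbs) (g := idx (N k) (i k)) (f := f)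
          fun _ _ _ _ h => by unfold idx at h; omega]
        exact sum_congr rfl fun n hn => indicator_of_mem (show n ∈ A from Or.inr ⟨k, hn⟩) _
      · intro n hn hn'
        refine indicator_of_notMem ?_ _
        have := mem_Ico.1 hn
        rintro (h | ⟨j, h⟩)
        · have := hmono.monotone (Nat.zero_le k)
          have := hS n h
          omega
        · have h1 := hT j n h
          have h2 : j < k + 1 := hmono.lt_iff_lt.1 (by omega)
          have h3 : k < j + 1 := hmono.lt_iff_lt.1 (by omega)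
          exact hn' ((show j = k by omega) ▸ h)
  have hsq : ∀ k, (2:ℝ) ^ k ≤ √(N k) := fun k => Real.le_sqrt_of_sq_le (by
    rw [← pow_mul, mul_comm, pow_mul]
    have : (0:ℝ) < (2 ^ 2) ^ k := by positivity
    simp only [N]; push_cast; norm_num at *; nlinarith)
  have hnorm : ∀ k n, N k ≤ n → ‖v n‖ ≤ (1 / 2) ^ k := fun k n hn => by
    have h1 : (2:ℝ) ^ k ≤ √n := (hsq k).trans (Real.sqrt_le_sqrt (by exact_mod_cast hn))
    have h2 : (1:ℝ) ≤ 2 ^ k := one_le_pow₀ (by norm_num)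
    have h3 := Real.mul_self_sqrt (show (0:ℝ) ≤ n by positivity)
    rw [one_div_pow]
    refine max_le ?_ ?_ <;> simp only [v, norm_div, norm_pow, norm_neg, norm_one, one_pow,
      Real.norm_eq_abs] <;> rw [abs_of_nonneg (by positivity)] <;>
      refine one_div_le_one_div_of_le (by positivity) ?_
    · nlinarith
    · exact h1
  have hs : Summable (A.indicator v) := by
    refine Summable.of_norm (summable_of_sum_range_le (c := ∑ n ∈ S, ‖v n‖ + 7 * c * 2)
      (fun _ => norm_nonneg _) fun m => ?_)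
    refine (sum_le_sum_of_subset_of_nonneg (range_mono (hmono.id_le m))
      fun _ _ _ => norm_nonneg _).trans ?_
    simp only [norm_indicator_eq_indicator_norm]
    rw [hsum]
    gcongr
    refine le_trans (sum_le_sum (g := fun j => 7 * c * (1 / 2) ^ j) fun j _ => ?_) ?_
    · refine (sum_le_card_nsmul _ _ _ fun r _ => hnorm j _ (by unfold idx; omega)).trans ?_
      rw [card_range, nsmul_eq_mul]
      gcongr; exact hi1 j
    · rw [← mul_sum]
      gcongr
      exact sum_le_hasSum _ (fun _ _ => by positivity) hasSum_geometric_two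
  refine ⟨A, ?_, ?_⟩
  · rintro n (h | ⟨k, h⟩)
    · exact S1 n h
    · have := (hT k n h).1
      have : (0:ℝ) < N k := by linarith [hN1 k]
      have : 0 < N k := by exact_mod_cast this
      omega
  have h1 := hs.hasSum.tendsto_sum_nat.comp hmono.tendsto_atTop
  have h2 : ∀ k, ∑ n ∈ range (N k), A.indicator v n = (a, b) - e k := fun k => by
    rw [hsum]
    induction k with
    | zero => simp [e]
    | succ k ih =>
      rw [sum_range_succ, ← add_assoc, ih]
      show _ = (a, b) - (e k - blk (N k) (i k))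
      unfold blk; abel
  have h3 : Tendsto e atTop (𝓝 0) := by
    refine squeeze_zero_norm (a := fun k => 6 * c * (1 / 2) ^ k) (fun k => ?_) ?_
    · obtain ⟨a1, a2⟩ := hI k
      have b1 := hsq k
      have b2 : (1:ℝ) ≤ 2 ^ k := one_le_pow₀ (by norm_num)
      have b3 := Real.mul_self_sqrt (show (0:ℝ) ≤ N k by positivity)
      have b4 : |√(N k) * (e k).2| ≤ 6 * c := by
        have := abs_sub_abs_le_abs_sub (√(N k) * (e k).2) (N k * (e k).1)
        linarith
      rw [abs_mul, abs_of_nonneg (by positivity)] at a1 b4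
      rw [one_div_pow, mul_one_div, le_div_iff₀ (by positivity), Prod.norm_def, max_mul_of_nonneg _ _
        (by positivity)]
      refine max_le ?_ ?_ <;> rw [Real.norm_eq_abs]
      · have : (2:ℝ) ^ k ≤ N k := by nlinarith
        nlinarith [abs_nonneg (e k).1]
      · nlinarith [abs_nonneg (e k).2]
    · simpa using (tendsto_pow_atTop_nhds_zero_of_lt_one (r := (1 / 2 : ℝ)) (by norm_num)
        (by norm_num)).const_mul (6 * c)
  have h4 : Tendsto (fun k => (a, b) - e k) atTop (𝓝 (a, b)) := by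
    simpa using h3.const_sub (a, b)
  have h5 := tendsto_nhds_unique (h1.congr h2) h4
  exact h5 ▸ hs.hasSum

end Pool.Agent.Results.MP_51e3e3_an.Plane
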